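import Mathlib

set_option autoImplicit false
set_option linter.unusedSectionVars false

namespace Pool.Agent.H.MP_30cdc8_co

open Finset Function
open scoped BigOperators

variable {U V : Type} [Fintype U] [DecidableEq U] [Fintype V] [Nonempty V]

noncomputable def A (S : Finset U) (h : (U → V) → ℝ) (x : U → V) : ℝ :=
  𝔼 y : U → V, h (S.piecewise x y)

def Det (S : Finset U) (h : (U → V) → ℝ) : Prop := ∀ x y, (∀ u ∈ S, x u = y u) → h x = h y

def Ind (c : U) (h : (U → V) → ℝ) : Prop := ∀ x v, h (update x c v) = h x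

noncomputable def D (f : (U → V) → ℝ) (S : Finset U) : ℝ := 𝔼 x, f x * Real.log (A S f x)

lemma A_det (S : Finset U) (h : (U → V) → ℝ) : Det S (A S h) := by
  intro x y hxy
  unfold A
  refine expect_congr rfl fun z _ => ?_
  rw [piecewise_congr S (fun u hu => hxy u hu) (fun _ _ => rfl)]

lemma A_nn (S : Finset U) {h : (U → V) → ℝ} (h0 : ∀ x, 0 ≤ h x) (x : U → V) : 0 ≤ A S h x :=
  expect_nonneg fun _ _ => h0 _

lemma Det.mono {S S' : Finset U} {h : (U → V) → ℝ} (hd : Det S h) (hs : S ⊆ S') : Det S' h :=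
  fun x y hxy => hd x y fun u hu => hxy u (hs hu)

lemma Det.ind {S : Finset U} {h : (U → V) → ℝ} (hd : Det S h) {c : U} (hc : c ∉ S) : Ind c h :=
  fun x v => hd _ _ fun u hu => update_of_ne (fun e => hc (by rwa [e] at hu)) _ _

lemma pw_exp (S : Finset U) (G : (U → V) → ℝ) :
    𝔼 x : U → V, 𝔼 y : U → V, G (S.piecewise x y) = 𝔼 x, G x := by
  have inv : Involutive fun p : (U → V) × (U → V) =>
      (S.piecewise p.1 p.2, S.piecewise p.2 p.1) := by
    intro p
    refine Prod.ext (funext fun u => ?_) (funext fun u => ?_) <;> by_cases hu : u ∈ S <;>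
      simp [piecewise, hu]
  have e1 : 𝔼 x : U → V, 𝔼 y : U → V, G (S.piecewise x y) =
      𝔼 p : (U → V) × (U → V), G (S.piecewise p.1 p.2) := by
    rw [← univ_product_univ, expect_product]
  have e2 : 𝔼 p : (U → V) × (U → V), G p.1 = 𝔼 x, G x := by
    rw [← univ_product_univ, expect_product]
    simp
  rw [e1, ← e2]
  exact Fintype.expect_bijective _ inv.bijective _ _ fun _ => rfl

lemma A_int (S : Finset U) (h k : (U → V) → ℝ) (hk : Det S k) :
    𝔼 x, A S h x * k x = 𝔼 x, h x * k x := by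
  rw [← pw_exp S fun x => h x * k x]
  refine expect_congr rfl fun x _ => ?_
  unfold A
  rw [expect_mul]
  refine expect_congr rfl fun y _ => ?_
  rw [hk (S.piecewise x y) x fun u hu => piecewise_eq_of_mem _ _ _ hu]

lemma A_exp (S : Finset U) (h : (U → V) → ℝ) : 𝔼 x, A S h x = 𝔼 x, h x := pw_exp S h

lemma A_ne (S : Finset U) {h : (U → V) → ℝ} (h0 : ∀ x, 0 ≤ h x) {x : U → V} (hx : h x ≠ 0) :
    A S h x ≠ 0 := by
  intro e
  have := (expect_eq_zero_iff_of_nonneg fun y _ => h0 (S.piecewise x y)).1 e x (mem_univ _)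
  rw [piecewise_same] at this
  exact hx this

lemma A_ind (S : Finset U) {h : (U → V) → ℝ} {c : U} (hc : Ind c h) : Ind c (A S h) := by
  intro x v
  by_cases hS : c ∈ S
  · unfold A
    refine expect_congr rfl fun y _ => ?_
    have : S.piecewise (update x c v) y = update (S.piecewise x y) c v := by
      funext u
      by_cases hu : u = c
      · subst hu; simp [piecewise, hS]
      · simp [piecewise, hu]
    rw [this, hc]
  · exact (A_det S h).ind hS x v

lemma gibbs (S : Finset U) {f h : (U → V) → ℝ} (f0 : ∀ x, 0 ≤ f x) (h0 : ∀ x, 0 ≤ h x)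
    (hd : Det S h) (hp : ∀ x, f x ≠ 0 → h x ≠ 0) (he : 𝔼 x, h x ≤ 𝔼 x, f x) :
    𝔼 x, f x * Real.log (h x) ≤ D f S := by
  have k1 : ∀ x, f x * Real.log (h x) ≤
      f x * Real.log (A S f x) + (f x * (h x / A S f x) - f x) := by
    intro x
    by_cases hx : f x = 0
    · simp [hx]
    · have a1 : 0 < h x := lt_of_le_of_ne (h0 x) (hp x hx).symm
      have a2 : 0 < A S f x := lt_of_le_of_ne (A_nn S f0 x) (A_ne S f0 hx).symm
      have a3 := Real.log_le_sub_one_of_pos (div_pos a1 a2)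
      rw [Real.log_div a1.ne' a2.ne'] at a3
      nlinarith [mul_le_mul_of_nonneg_left a3 (f0 x)]
  have k2 : 𝔼 x, f x * (h x / A S f x) ≤ 𝔼 x, h x := by
    rw [← A_int S f (fun x => h x / A S f x) fun x y hxy => by
      show h x / _ = h y / _
      rw [hd x y hxy, A_det S f x y hxy]]
    refine expect_le_expect fun x _ => ?_
    by_cases hx : A S f x = 0
    · rw [hx, zero_mul]; exact h0 x
    · rw [mul_div_cancel₀ _ hx]
  have k3 := expect_le_expect (s := univ) fun x _ => k1 x
  rw [expect_add_distrib, expect_sub_distrib] at k3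
  unfold D
  linarith

lemma D_nn (S : Finset U) {f : (U → V) → ℝ} (f0 : ∀ x, 0 ≤ f x) (f1 : 𝔼 x, f x = 1) :
    0 ≤ D f S := by
  have := gibbs S (h := fun _ => 1) f0 (fun _ => zero_le_one) (fun _ _ _ => rfl)
    (fun _ _ => one_ne_zero) (by rw [f1]; simp)
  simpa using this

lemma up (S : Finset U) {f ρ : (U → V) → ℝ} (f0 : ∀ x, 0 ≤ f x) (r0 : ∀ x, 0 ≤ ρ x)
    (h : ∀ k, Det S k → 𝔼 x, f x * k x = 𝔼 x, ρ x * k x) :
    D f S ≤ 𝔼 x, ρ x * Real.log (ρ x) := by
  have e1 : D f S = 𝔼 x, ρ x * Real.log (A S f x) :=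
    h _ fun x y hxy => by show Real.log _ = Real.log _; rw [A_det S f x y hxy]
  have e2 : D ρ univ = 𝔼 x, ρ x * Real.log (ρ x) := by
    unfold D A
    simp
  rw [e1, ← e2]
  refine gibbs univ r0 (A_nn S f0) ((A_det S f).mono (subset_univ _)) ?_ ?_
  · intro x hx hA
    have dk : Det S fun x => if A S f x = 0 then (1 : ℝ) else 0 := fun x y hxy => by
      show (if _ then _ else _) = (if _ then _ else _)
      rw [A_det S f x y hxy]
    have a1 := h _ dk
    rw [← A_int S f _ dk] at a1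
    have a2 : 𝔼 x, A S f x * (if A S f x = 0 then (1 : ℝ) else 0) = 0 :=
      expect_eq_zero fun x _ => by split_ifs with h1 <;> simp [h1]
    rw [a2] at a1
    have := (expect_eq_zero_iff_of_nonneg fun y _ => mul_nonneg (r0 y)
      (by split_ifs <;> norm_num)).1 a1.symm x (mem_univ _)
    simp [hA, hx] at this
  · have := h (fun _ => 1) fun _ _ _ => rfl
    simp only [mul_one] at this
    rw [A_exp, this]

lemma upd (c : U) (h : (U → V) → ℝ) : 𝔼 x, h x = 𝔼 x : U → V, 𝔼 v : V, h (update x c v) := by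
  have inv : Involutive fun p : (U → V) × V => (update p.1 c p.2, p.1 c) := by
    intro p
    simp
  have e1 : 𝔼 x : U → V, 𝔼 v : V, h (update x c v) = 𝔼 p : (U → V) × V, h (update p.1 c p.2) := by
    rw [← univ_product_univ, expect_product]
  have e2 : 𝔼 p : (U → V) × V, h p.1 = 𝔼 x, h x := by
    rw [← univ_product_univ, expect_product]
    simp
  rw [e1, ← e2]
  exact (Fintype.expect_bijective _ inv.bijective _ _ fun _ => rfl).symm

lemma intg (T : Finset U) (b : (U → V) → ℝ) (q : U → (U → V) → ℝ) (hb : ∀ c ∈ T, Ind c b)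
    (hq : ∀ c ∈ T, ∀ c' ∈ T, c' ≠ c → Ind c' (q c))
    (hn : ∀ c ∈ T, ∀ x, b x ≠ 0 → 𝔼 v, q c (update x c v) = 1)
    (R : Finset U) (hR : R ⊆ T) (k : (U → V) → ℝ) (R' : Finset U) :
    R' ⊆ T → Disjoint R R' → (∀ c ∈ R', Ind c k) →
    𝔼 x, b x * (∏ c ∈ R ∪ R', q c x) * k x = 𝔼 x, b x * (∏ c ∈ R, q c x) * k x := by
  induction R' using Finset.induction_on with
  | empty => intro _ _ _; simp
  | insert c R' hc ih =>
    intro h1 h2 h3
    have hcT : c ∈ T := h1 (mem_insert_self _ _)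
    have hcR : c ∉ R ∪ R' := by
      rw [mem_union]
      rintro (h | h)
      · exact disjoint_left.1 h2 h (mem_insert_self _ _)
      · exact hc h
    rw [← ih ((subset_insert _ _).trans h1) (h2.mono_right (subset_insert _ _))
      fun c' hc' => h3 c' (mem_insert_of_mem hc')]
    rw [union_insert, upd c]
    refine expect_congr rfl fun x _ => ?_
    have e : ∀ v, b (update x c v) * (∏ c' ∈ insert c (R ∪ R'), q c' (update x c v)) *
        k (update x c v) = (b x * (∏ c' ∈ R ∪ R', q c' x) * k x) * q c (update x c v) := by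
      intro v
      rw [prod_insert hcR, hb c hcT, h3 c (mem_insert_self _ _),
        prod_congr rfl fun c' hc' => hq c' ?_ c hcT (fun e => hcR (e ▸ hc')) x v]
      · ring
      · rcases mem_union.1 hc' with h | h
        · exact hR h
        · exact h1 (mem_insert_of_mem h)
    simp only [e]
    rw [← mul_expect]
    by_cases hx : b x = 0
    · simp [hx]
    · rw [hn c hcT x hx, mul_one]

section mix
variable (w : V → ℝ) (fv : V → (U → V) → ℝ)

noncomputable def fb (x : U → V) : ℝ := 𝔼 v, w v * fv v x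

noncomputable def Q (S : Finset U) (v : V) (x : U → V) : ℝ :=
  w v * A S (fv v) x / A S (fb w fv) x

noncomputable def J (S : Finset U) : ℝ := 𝔼 v, w v * (Real.log (w v) + D (fv v) S)

lemma A_fb (S : Finset U) (x : U → V) : A S (fb w fv) x = 𝔼 v, w v * A S (fv v) x := by
  unfold A fb
  rw [expect_comm]
  simp only [mul_expect]

lemma Q_norm (S : Finset U) (x : U → V) (hx : A S (fb w fv) x ≠ 0) : 𝔼 v, Q w fv S v x = 1 := by
  unfold Q
  rw [← expect_div, ← A_fb, div_self hx]

lemma Q_det (S : Finset U) (v : V) : Det S (Q w fv S v) := by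
  intro x y hxy
  unfold Q
  rw [A_det S _ x y hxy, A_det S (fb w fv) x y hxy]

variable {w fv}

lemma fb_nn (w0 : ∀ v, 0 ≤ w v) (f0 : ∀ v x, 0 ≤ fv v x) (x : U → V) : 0 ≤ fb w fv x :=
  expect_nonneg fun v _ => mul_nonneg (w0 v) (f0 v x)

lemma fb_exp (w1 : 𝔼 v, w v = 1) (f1 : ∀ v, 𝔼 x, fv v x = 1) : 𝔼 x, fb w fv x = 1 := by
  unfold fb
  rw [expect_comm]
  simp only [← mul_expect, f1, mul_one, w1]

lemma Q_nn (w0 : ∀ v, 0 ≤ w v) (f0 : ∀ v x, 0 ≤ fv v x) (S : Finset U) (v : V) (x : U → V) :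
    0 ≤ Q w fv S v x :=
  div_nonneg (mul_nonneg (w0 v) (A_nn S (f0 v) x)) (A_nn S (fb_nn w0 f0) x)

lemma ident (w0 : ∀ v, 0 ≤ w v) (f0 : ∀ v x, 0 ≤ fv v x) (f1 : ∀ v, 𝔼 x, fv v x = 1)
    (S : Finset U) :
    J w fv S = D (fb w fv) S + 𝔼 x, fb w fv x * 𝔼 v, Q w fv S v x * Real.log (Q w fv S v x) := by
  have dl : ∀ h : (U → V) → ℝ, Det S fun x => Real.log (A S h x) := fun h x y hxy => by
    show Real.log _ = Real.log _
    rw [A_det S h x y hxy]
  have e1 : J w fv S = 𝔼 x, 𝔼 v, w v * A S (fv v) x *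
      (Real.log (w v) + Real.log (A S (fv v) x)) := by
    rw [expect_comm]
    unfold J
    refine expect_congr rfl fun v _ => ?_
    have : ∀ x, w v * A S (fv v) x * (Real.log (w v) + Real.log (A S (fv v) x)) =
        (w v * Real.log (w v)) * A S (fv v) x + w v * (A S (fv v) x * Real.log (A S (fv v) x)) :=
      fun x => by ring
    simp only [this]
    rw [expect_add_distrib, ← mul_expect, ← mul_expect, A_exp, f1, A_int S _ _ (dl _)]
    unfold D
    ring
  have e2 : D (fb w fv) S = 𝔼 x, 𝔼 v, w v * A S (fv v) x * Real.log (A S (fb w fv) x) := by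
    unfold D
    rw [← A_int S _ _ (dl _)]
    refine expect_congr rfl fun x _ => ?_
    rw [← expect_mul, ← A_fb]
  have e3 : 𝔼 x, fb w fv x * 𝔼 v, Q w fv S v x * Real.log (Q w fv S v x) =
      𝔼 x, 𝔼 v, A S (fb w fv) x * (Q w fv S v x * Real.log (Q w fv S v x)) := by
    rw [← A_int S (fb w fv) (fun x => 𝔼 v, Q w fv S v x * Real.log (Q w fv S v x))
      fun x y hxy => expect_congr rfl fun v _ => by rw [Q_det w fv S v x y hxy]]
    simp only [mul_expect]
  rw [e1, e2, e3, ← expect_add_distrib]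
  refine expect_congr rfl fun x _ => ?_
  rw [← expect_add_distrib]
  refine expect_congr rfl fun v _ => ?_
  unfold Q
  by_cases ha : w v = 0
  · simp [ha]
  by_cases hb : A S (fv v) x = 0
  · simp [hb]
  have hc : A S (fb w fv) x ≠ 0 := by
    intro e
    rw [A_fb] at e
    have := (expect_eq_zero_iff_of_nonneg fun v _ =>
      mul_nonneg (w0 v) (A_nn S (f0 v) x)).1 e v (mem_univ _)
    exact mul_ne_zero ha hb this
  rw [Real.log_div (mul_ne_zero ha hb) hc, Real.log_mul ha hb]
  field_simp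
  ring

lemma QQ_nn (w0 : ∀ v, 0 ≤ w v) (f0 : ∀ v x, 0 ≤ fv v x) (S : Finset U) :
    0 ≤ 𝔼 x, fb w fv x * 𝔼 v, Q w fv S v x * Real.log (Q w fv S v x) := by
  refine expect_nonneg fun x _ => ?_
  by_cases hx : fb w fv x = 0
  · simp [hx]
  refine mul_nonneg (fb_nn w0 f0 x) ?_
  have h1 := Q_norm w fv S x (A_ne S (fb_nn w0 f0) hx)
  have h2 : 𝔼 v, (Q w fv S v x - 1) ≤ 𝔼 v, Q w fv S v x * Real.log (Q w fv S v x) :=
    expect_le_expect fun v _ => Real.self_sub_one_le_mul_log (Q_nn w0 f0 S v x)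
  rw [expect_sub_distrib, h1] at h2
  simpa using h2

theorem glue (w0 : ∀ v, 0 ≤ w v) (w1 : 𝔼 v, w v = 1) (f0 : ∀ v x, 0 ≤ fv v x)
    (f1 : ∀ v, 𝔼 x, fv v x = 1) (T : Finset U) (N : U → Finset U)
    (hT : ∀ c ∈ T, ∀ v, Ind c (fv v)) (hN : ∀ c ∈ T, ∀ c' ∈ T, c' ∉ N c) :
    (𝔼 x, fb w fv x * ∏ c ∈ T, Q w fv (N c) (x c) x = 1) ∧
    ∀ S : Finset U, D (fun x => fb w fv x * ∏ c ∈ T, Q w fv (N c) (x c) x) S ≤
      J w fv (S ∪ (S ∩ T).biUnion N) + ∑ c ∈ S ∩ T, J w fv (N c) := by
  set b := fb w fv with hbdef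
  set q : U → (U → V) → ℝ := fun c x => Q w fv (N c) (x c) x with hq
  have b0 : ∀ x, 0 ≤ b x := fb_nn w0 f0
  have b1 : 𝔼 x, b x = 1 := fb_exp w1 f1
  have q0 : ∀ c x, 0 ≤ q c x := fun c x => Q_nn w0 f0 _ _ _
  have hb : ∀ c ∈ T, Ind c b := fun c hc x v =>
    expect_congr rfl fun z _ => by rw [hT c hc z x v]
  have qdet : ∀ c, Det (insert c (N c)) (q c) := fun c x y hxy => by
    show Q w fv (N c) (x c) x = Q w fv (N c) (y c) y
    rw [hxy c (mem_insert_self _ _)]
    exact Q_det w fv _ _ x y fun u hu => hxy u (mem_insert_of_mem hu)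
  have hqi : ∀ c ∈ T, ∀ c' ∈ T, c' ≠ c → Ind c' (q c) := fun c hc c' hc' hne =>
    (qdet c).ind (by rw [mem_insert]; rintro (h | h); exacts [hne h, hN c hc c' hc' h])
  have qupd : ∀ c ∈ T, ∀ x v, q c (update x c v) = Q w fv (N c) v x := fun c hc x v => by
    show Q w fv (N c) (update x c v c) (update x c v) = _
    rw [update_self]
    exact (Q_det w fv _ _).ind (hN c hc c hc) x v
  have hn : ∀ c ∈ T, ∀ x, b x ≠ 0 → 𝔼 v, q c (update x c v) = 1 := fun c hc x hx => by
    simp only [qupd c hc]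
    exact Q_norm w fv _ x (A_ne _ b0 hx)
  have I := intg T b q hb hqi hn
  refine ⟨?_, fun S => ?_⟩
  · have := I ∅ (empty_subset _) (fun _ => 1) T subset_rfl (disjoint_empty_left _)
      fun _ _ _ _ => rfl
    simpa [b1] using this
  set S1 := S ∩ T with hS1
  set S2 := S ∪ S1.biUnion N with hS2
  have s1T : S1 ⊆ T := inter_subset_right
  have pdet : Det S2 fun x => ∏ c ∈ S1, q c x := fun x y hxy =>
    prod_congr rfl fun c hc => (qdet c).mono (fun u hu => by
      rcases mem_insert.1 hu with rfl | h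
      · exact mem_union_left _ (mem_inter.1 hc).1
      · exact mem_union_right _ (mem_biUnion.2 ⟨c, hc, h⟩)) x y hxy
  have key : ∀ k, Det S2 k → 𝔼 x, (A S2 b x * ∏ c ∈ S1, q c x) * k x =
      𝔼 x, b x * (∏ c ∈ S1, q c x) * k x := by
    intro k hk
    simp only [mul_assoc]
    exact A_int S2 b _ fun x y hxy => by
      show _ * k x = _ * k y
      rw [hk x y hxy]; exact congrArg (· * k y) (pdet x y hxy)
  have p0 : ∀ x (R : Finset U), 0 ≤ ∏ c ∈ R, q c x := fun x R => prod_nonneg fun c _ => q0 c x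
  have u1 := up S (f := fun x => b x * ∏ c ∈ T, q c x) (ρ := fun x => A S2 b x * ∏ c ∈ S1, q c x)
    (fun x => mul_nonneg (b0 x) (p0 x _)) (fun x => mul_nonneg (A_nn _ b0 x) (p0 x _)) (by
      intro k hk
      rw [key k (hk.mono subset_union_left)]
      have := I S1 s1T k (T \ S) sdiff_subset (by
        rw [disjoint_left]; intro c h1 h2; exact (mem_sdiff.1 h2).2 (mem_inter.1 h1).1)
        fun c hc => hk.ind (mem_sdiff.1 hc).2
      rw [← this]
      have e : S1 ∪ T \ S = T := by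
        ext u; simp only [hS1, mem_union, mem_inter, mem_sdiff]; tauto
      rw [e])
  refine u1.trans ?_
  have e1 : ∀ x, (A S2 b x * ∏ c ∈ S1, q c x) * Real.log (A S2 b x * ∏ c ∈ S1, q c x) =
      (A S2 b x * ∏ c ∈ S1, q c x) * Real.log (A S2 b x) +
        ∑ c ∈ S1, (A S2 b x * ∏ c ∈ S1, q c x) * Real.log (q c x) := by
    intro x
    by_cases h : A S2 b x * ∏ c ∈ S1, q c x = 0
    · simp [h]
    · have h1 := left_ne_zero_of_mul h
      have h2 := right_ne_zero_of_mul h
      rw [Real.log_mul h1 h2, Real.log_prod (prod_ne_zero_iff.1 h2), mul_add, mul_sum]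
  simp only [e1]
  rw [expect_add_distrib, expect_sum_comm]
  refine add_le_add ?_ (sum_le_sum fun c hc => ?_)
  · rw [key _ fun x y hxy => by show Real.log _ = Real.log _; rw [A_det S2 b x y hxy]]
    have := I ∅ (empty_subset _) (fun x => Real.log (A S2 b x)) S1 s1T (disjoint_empty_left _)
      fun c hc x v => by
        show Real.log _ = Real.log _
        rw [A_ind S2 (hb c (s1T hc)) x v]
    rw [empty_union] at this
    rw [this]
    simp only [prod_empty, mul_one]
    have := ident w0 f0 f1 S2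
    have := QQ_nn w0 f0 S2
    unfold D at *
    linarith
  · have dq : Det S2 fun x => Real.log (q c x) := fun x y hxy => by
      show Real.log _ = Real.log _
      rw [(qdet c).mono (fun u hu => by
        rcases mem_insert.1 hu with rfl | h
        · exact mem_union_left _ (mem_inter.1 hc).1
        · exact mem_union_right _ (mem_biUnion.2 ⟨c, hc, h⟩)) x y hxy]
    rw [key _ dq]
    have := I {c} (singleton_subset_iff.2 (s1T hc)) (fun x => Real.log (q c x)) (S1.erase c)
      ((erase_subset _ _).trans s1T) (by simp) fun c' hc' x v => by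
        show Real.log _ = Real.log _
        rw [hqi c (s1T hc) c' (s1T (mem_erase.1 hc').2) (mem_erase.1 hc').1 x v]
    rw [singleton_union, insert_erase hc] at this
    rw [this, upd c]
    simp only [prod_singleton, qupd c (s1T hc), hb c (s1T hc) _ _, mul_assoc, ← mul_expect]
    have := ident w0 f0 f1 (N c)
    have := D_nn (N c) b0 b1
    linarith

end mix

end Pool.Agent.H.MP_30cdc8_co
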