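import Pool.Agent.H.MP_30cdc8_co.A

set_option autoImplicit false
set_option linter.unusedSectionVars false

namespace Pool.Agent.H.MP_30cdc8_co

open Finset Function
open scoped BigOperators Classical

variable {U V : Type} [Fintype U] [DecidableEq U] [Fintype V] [Nonempty V]

def K (Δ : ℕ) : ℕ → ℕ
  | 0 => 1
  | r + 1 => K Δ r * (2 * (r * Δ) + 2)

lemma K_pos (Δ r : ℕ) : 1 ≤ K Δ r := by
  induction r with
  | zero => exact le_rfl
  | succ r ih => exact Nat.mul_pos ih (by omega)

noncomputable def dens {r : ℕ} (g : (Fin r → V) → Prop) : ℝ :=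
  𝔼 x : Fin r → V, if g x then (1 : ℝ) else 0

lemma dens_nn {r : ℕ} (g : (Fin r → V) → Prop) : 0 ≤ dens g :=
  expect_nonneg fun _ _ => by split_ifs <;> norm_num

lemma dens_le {r : ℕ} (g : (Fin r → V) → Prop) : dens g ≤ 1 :=
  expect_le univ_nonempty fun _ _ => by split_ifs <;> norm_num

lemma dens_succ {r : ℕ} (g : (Fin (r + 1) → V) → Prop) :
    dens g = 𝔼 v : V, dens fun y : Fin r → V => g (Fin.cons v y) := by
  unfold dens
  rw [← expect_product' univ univ fun (v : V) (y : Fin r → V) =>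
    if g (Fin.cons v y) then (1 : ℝ) else 0, univ_product_univ]
  exact (Fintype.expect_equiv (Fin.consEquiv fun _ => V) _ _ fun _ => rfl).symm

theorem indu (Δ : ℕ) (r : ℕ) : ∀ (F : Finset (Fin r → U)),
    (∀ e ∈ F, ∀ e' ∈ F, ∀ i j, e i = e' j → i = j) →
    (∀ u, (F.filter fun e => ∃ i, e i = u).card ≤ Δ) →
    ∀ g : (Fin r → V) → Prop, 0 < dens g →
    ∃ f : (U → V) → ℝ, (∀ x, 0 ≤ f x) ∧ 𝔼 x, f x = 1 ∧
      (∀ c, (∀ e ∈ F, ∀ i, e i ≠ c) → Ind c f) ∧
      (∀ x, f x ≠ 0 → ∀ e ∈ F, g (x ∘ e)) ∧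
      ∀ S : Finset U, D f S ≤ (K Δ r : ℝ) * ((S.card : ℝ) + 1) * (-Real.log (dens g)) := by
  induction r with
  | zero =>
    intro F _ _ g hg
    refine ⟨fun _ => 1, fun _ => zero_le_one, by simp, fun _ _ _ _ => rfl, ?_, fun S => ?_⟩
    · intro x _ e _
      obtain ⟨y, -, hy⟩ := exists_ne_zero_of_expect_ne_zero hg.ne'
      have : g y := by by_contra h; simp [h] at hy
      rwa [Subsingleton.elim (x ∘ e) y]
    · have h1 : D (fun _ : U → V => (1 : ℝ)) S = 0 := by unfold D A; simp
      rw [h1]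
      have := Real.log_nonpos (dens_nn g) (dens_le g)
      exact mul_nonneg (by positivity) (by linarith)
  | succ r ih =>
    intro F hp hd g hg
    set F' : Finset (Fin r → U) := F.image Fin.tail with hF'
    have hp' : ∀ e ∈ F', ∀ e' ∈ F', ∀ i j, e i = e' j → i = j := by
      intro e he e' he' i j h
      obtain ⟨a, ha, rfl⟩ := mem_image.1 he
      obtain ⟨a', ha', rfl⟩ := mem_image.1 he'
      exact Fin.succ_injective _ (hp a ha a' ha' _ _ h)
    have hd' : ∀ u, (F'.filter fun e => ∃ i, e i = u).card ≤ Δ := by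
      intro u
      refine le_trans (le_trans (card_le_card ?_) (card_image_le
        (f := fun a : Fin (r + 1) → U => (Fin.tail a : Fin r → U)))) (hd u)
      intro e he
      obtain ⟨he1, i, hi⟩ := mem_filter.1 he
      obtain ⟨a, ha, rfl⟩ := mem_image.1 he1
      exact mem_image.2 ⟨a, mem_filter.2 ⟨ha, i.succ, hi⟩, rfl⟩
    set pv : V → ℝ := fun v => dens fun y : Fin r → V => g (Fin.cons v y) with hpv
    have ex : ∀ v, ∃ f : (U → V) → ℝ, (∀ x, 0 ≤ f x) ∧ 𝔼 x, f x = 1 ∧
        (∀ c, (∀ e ∈ F', ∀ i, e i ≠ c) → Ind c f) ∧ (0 < pv v →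
        (∀ x, f x ≠ 0 → ∀ e ∈ F', g (Fin.cons v (x ∘ e))) ∧
        ∀ S : Finset U, D f S ≤ (K Δ r : ℝ) * ((S.card : ℝ) + 1) * (-Real.log (pv v))) := by
      intro v
      by_cases h : 0 < pv v
      · obtain ⟨f, a1, a2, a3, a4, a5⟩ := ih F' hp' hd' _ h
        exact ⟨f, a1, a2, a3, fun _ => ⟨a4, a5⟩⟩
      · exact ⟨fun _ => 1, fun _ => zero_le_one, by simp, fun _ _ _ _ => rfl, fun h' => absurd h' h⟩
    choose fv f0 f1 fi fs using ex
    set p := dens g with hpdef
    have hpe : p = 𝔼 v, pv v := dens_succ g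
    set w : V → ℝ := fun v => pv v / p with hw
    have pv0 : ∀ v, 0 ≤ pv v := fun v => dens_nn _
    have w0 : ∀ v, 0 ≤ w v := fun v => div_nonneg (pv0 v) hg.le
    have w1 : 𝔼 v, w v = 1 := by
      simp only [hw]; rw [← expect_div, ← hpe, div_self hg.ne']
    set T : Finset U := F.image fun e => e 0 with hT
    set N : U → Finset U := fun c => (F.filter fun e => e 0 = c).biUnion
      fun e => univ.image (Fin.tail e) with hN
    have Nmem : ∀ c u, u ∈ N c → ∃ e ∈ F, ∃ i : Fin r, e i.succ = u := by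
      intro c u hu
      obtain ⟨e, he, hu⟩ := mem_biUnion.1 hu
      obtain ⟨i, -, hi⟩ := mem_image.1 hu
      exact ⟨e, (mem_filter.1 he).1, i, hi⟩
    have Ncard : ∀ c, (N c).card ≤ r * Δ := by
      intro c
      refine card_biUnion_le.trans ?_
      refine (sum_le_card_nsmul _ _ r fun e _ => card_image_le.trans (by simp)).trans ?_
      rw [smul_eq_mul, mul_comm]
      refine Nat.mul_le_mul_left _ (le_trans (card_le_card fun e he => ?_) (hd c))
      exact mem_filter.2 ⟨(mem_filter.1 he).1, 0, (mem_filter.1 he).2⟩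
    have hTi : ∀ c ∈ T, ∀ v, Ind c (fv v) := by
      intro c hc v
      refine fi v c fun e he i h => ?_
      obtain ⟨a, ha, rfl⟩ := mem_image.1 he
      obtain ⟨a', ha', rfl⟩ := mem_image.1 hc
      exact Fin.succ_ne_zero _ (hp a ha a' ha' _ _ h)
    have hNi : ∀ c ∈ T, ∀ c' ∈ T, c' ∉ N c := by
      intro c _ c' hc' h
      obtain ⟨e, he, i, hi⟩ := Nmem c c' h
      obtain ⟨a', ha', rfl⟩ := mem_image.1 hc'
      exact Fin.succ_ne_zero _ (hp e he a' ha' _ _ hi)
    obtain ⟨g1, g2⟩ := glue w0 w1 f0 f1 T N hTi hNi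
    set L := -Real.log p with hL
    have L0 : 0 ≤ L := by
      have := Real.log_nonpos (dens_nn g) (dens_le g)
      linarith
    have K1 : (1 : ℝ) ≤ K Δ r := by exact_mod_cast K_pos Δ r
    have hJ : ∀ S : Finset U, J w fv S ≤ (K Δ r : ℝ) * ((S.card : ℝ) + 1) * L := by
      intro S
      set M : ℝ := (K Δ r : ℝ) * ((S.card : ℝ) + 1) with hM
      have M1 : 1 ≤ M := by
        have : (0 : ℝ) ≤ S.card := by positivity
        nlinarith
      have a1 : ∀ v, w v * (Real.log (w v) + D (fv v) S) ≤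
          M * L * w v - (M - 1) * (w v - 1) := by
        intro v
        rcases (pv0 v).eq_or_lt with h | h
        · have : w v = 0 := by simp only [hw]; rw [← h, zero_div]
          rw [this]; linarith
        · have b1 := (fs v h).2 S
          have b2 : Real.log (w v) = Real.log (pv v) + L := by
            simp only [hw, hL]; rw [Real.log_div h.ne' hg.ne']; ring
          have b3 := Real.self_sub_one_le_mul_log (w0 v)
          have b4 := mul_le_mul_of_nonneg_left b1 (w0 v)
          have b5 := mul_le_mul_of_nonneg_left b3 (sub_nonneg.2 M1)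
          have b6 : Real.log (pv v) = Real.log (w v) - L := by linarith
          rw [← hM, b6] at b4
          nlinarith
      have a2 := expect_le_expect (s := univ) fun v _ => a1 v
      rw [expect_sub_distrib, ← mul_expect, ← mul_expect, expect_sub_distrib, w1] at a2
      unfold J
      simpa using a2
    refine ⟨fun x => fb w fv x * ∏ c ∈ T, Q w fv (N c) (x c) x,
      fun x => mul_nonneg (fb_nn w0 f0 x) (prod_nonneg fun c _ => Q_nn w0 f0 _ _ _), g1, ?_, ?_, ?_⟩
    · intro c hc x v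
      have b1 : fb w fv (update x c v) = fb w fv x := expect_congr rfl fun z _ => by
        rw [fi z c (fun e he i h => by
          obtain ⟨a, ha, rfl⟩ := mem_image.1 he
          exact hc a ha _ h) x v]
      show fb w fv (update x c v) * _ = _
      rw [b1]
      refine congrArg _ (prod_congr rfl fun c' hc' => ?_)
      obtain ⟨a, ha, rfl⟩ := mem_image.1 hc'
      rw [update_of_ne (hc a ha 0)]
      refine (Q_det w fv _ _).ind (fun h => ?_) x v
      obtain ⟨e, he, i, hi⟩ := Nmem _ _ h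
      exact hc e he _ hi
    · intro x hx e he
      have b1 := prod_ne_zero_iff.1 (right_ne_zero_of_mul hx) (e 0) (mem_image_of_mem _ he)
      unfold Q at b1
      have b2 := (div_ne_zero_iff.1 b1).1
      have b3 : 0 < pv (x (e 0)) := by
        refine lt_of_le_of_ne (pv0 _) fun h => left_ne_zero_of_mul b2 ?_
        simp only [hw]; rw [← h, zero_div]
      obtain ⟨y, -, hy⟩ := exists_ne_zero_of_expect_ne_zero (right_ne_zero_of_mul b2)
      have b4 := (fs _ b3).1 _ hy (Fin.tail e) (mem_image_of_mem _ he)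
      have b5 : x ∘ e = Fin.cons (x (e 0)) ((N (e 0)).piecewise x y ∘ Fin.tail e) := by
        funext i
        refine Fin.cases rfl (fun j => ?_) i
        show x (e j.succ) = (N (e 0)).piecewise x y (e j.succ)
        rw [piecewise_eq_of_mem]
        exact mem_biUnion.2 ⟨e, mem_filter.2 ⟨he, rfl⟩, mem_image.2 ⟨j, mem_univ _, rfl⟩⟩
      rw [b5]; exact b4
    · intro S
      refine (g2 S).trans ?_
      have c1 : ((S ∪ (S ∩ T).biUnion N).card : ℝ) ≤ S.card + S.card * (r * Δ : ℕ) := by
        have : (S ∪ (S ∩ T).biUnion N).card ≤ S.card + S.card * (r * Δ) := by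
          refine (card_union_le _ _).trans (Nat.add_le_add_left (card_biUnion_le.trans ?_) _)
          refine (sum_le_card_nsmul _ _ (r * Δ) fun c _ => Ncard c).trans ?_
          rw [smul_eq_mul]
          exact Nat.mul_le_mul_right _ (card_le_card inter_subset_left)
        exact_mod_cast this
      have c2 : ∑ c ∈ S ∩ T, J w fv (N c) ≤
          (S.card : ℝ) * ((K Δ r : ℝ) * (((r * Δ : ℕ) : ℝ) + 1) * L) := by
        refine (sum_le_card_nsmul _ _ ((K Δ r : ℝ) * (((r * Δ : ℕ) : ℝ) + 1) * L)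
          fun c _ => (hJ _).trans ?_).trans ?_
        · have : ((N c).card : ℝ) ≤ (r * Δ : ℕ) := by exact_mod_cast Ncard c
          gcongr
        · rw [nsmul_eq_mul]
          have : ((S ∩ T).card : ℝ) ≤ S.card := by
            exact_mod_cast card_le_card inter_subset_left
          gcongr
      have c3 := hJ (S ∪ (S ∩ T).biUnion N)
      have c4 : (K Δ r : ℝ) * (((S ∪ (S ∩ T).biUnion N).card : ℝ) + 1) * L ≤
          (K Δ r : ℝ) * ((S.card + S.card * (r * Δ : ℕ)) + 1) * L := by gcongr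
      have c5 : (K Δ (r + 1) : ℝ) = K Δ r * (2 * ((r * Δ : ℕ) : ℝ) + 2) := by
        rw [K]; push_cast; ring
      rw [c5]
      set a : ℝ := ((r * Δ : ℕ) : ℝ)
      have a0 : 0 ≤ a := by positivity
      have KL : 0 ≤ (K Δ r : ℝ) * L := by positivity
      have := mul_nonneg KL (show 0 ≤ 2 * a + 1 by positivity)
      nlinarith

theorem count (Δ r : ℕ) (F : Finset (Fin r → U))
    (hp : ∀ e ∈ F, ∀ e' ∈ F, ∀ i j, e i = e' j → i = j)
    (hd : ∀ u, (F.filter fun e => ∃ i, e i = u).card ≤ Δ)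
    (g : (Fin r → V) → Prop) (hg : 0 < dens g) :
    -Real.log (𝔼 x : U → V, if ∀ e ∈ F, g (x ∘ e) then (1 : ℝ) else 0) ≤
      (K Δ r : ℝ) * ((r * F.card : ℕ) + 1) * (-Real.log (dens g)) := by
  obtain ⟨f, f0, f1, -, fs, fD⟩ := indu (U := U) Δ r F hp hd g hg
  set S : Finset U := F.biUnion fun e => univ.image e with hS
  set t : ℝ := 𝔼 x : U → V, if ∀ e ∈ F, g (x ∘ e) then (1 : ℝ) else 0 with ht
  have t0 : 0 < t := by
    obtain ⟨y, -, hy⟩ := exists_ne_zero_of_expect_ne_zero (f1.trans_ne one_ne_zero)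
    refine expect_pos' (fun _ _ => by split_ifs <;> norm_num) ⟨y, mem_univ _, ?_⟩
    rw [if_pos (fs y hy)]; norm_num
  have h1 := gibbs S (f := f) (h := fun x => (if ∀ e ∈ F, g (x ∘ e) then (1 : ℝ) else 0) / t) f0
    (fun x => div_nonneg (by split_ifs <;> norm_num) t0.le)
    (fun x y hxy => by
      have : ∀ e ∈ F, x ∘ e = y ∘ e := fun e he => funext fun i =>
        hxy _ (mem_biUnion.2 ⟨e, he, mem_image_of_mem _ (mem_univ i)⟩)
      have e2 : (∀ e ∈ F, g (x ∘ e)) ↔ ∀ e ∈ F, g (y ∘ e) :=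
        forall₂_congr fun e he => by rw [this e he]
      simp only [e2])
    (fun x hx => by rw [if_pos (fs x hx)]; positivity)
    (by rw [← expect_div, ← ht, div_self t0.ne', f1])
  have h2 : 𝔼 x, f x * Real.log ((if ∀ e ∈ F, g (x ∘ e) then (1 : ℝ) else 0) / t) =
      -Real.log t := by
    have : ∀ x, f x * Real.log ((if ∀ e ∈ F, g (x ∘ e) then (1 : ℝ) else 0) / t) =
        f x * (-Real.log t) := by
      intro x
      by_cases hx : f x = 0
      · simp [hx]
      · rw [if_pos (fs x hx), one_div, Real.log_inv]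
    simp only [this]
    rw [← expect_mul, f1, one_mul]
  rw [h2] at h1
  refine h1.trans ((fD S).trans ?_)
  have c1 : (S.card : ℝ) ≤ (r * F.card : ℕ) := by
    have : S.card ≤ r * F.card := by
      refine card_biUnion_le.trans ?_
      refine (sum_le_card_nsmul _ _ r fun e _ => card_image_le.trans (by simp)).trans ?_
      rw [smul_eq_mul, mul_comm]
    exact_mod_cast this
  have L0 : 0 ≤ -Real.log (dens g) := by
    have := Real.log_nonpos (dens_nn g) (dens_le g)
    linarith
  gcongr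

end Pool.Agent.H.MP_30cdc8_co
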