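import Pool.Agent.H.MP_30cdc8_co.B

set_option autoImplicit false

namespace Pool.Agent.H.MP_30cdc8_co

open Finset Function
open scoped BigOperators

lemma ratio {a n : ℕ} (P : (Fin a → Fin n) → Prop) [DecidablePred P] :
    𝔼 x : Fin a → Fin n, (if P x then (1 : ℝ) else 0) =
      ((univ.filter P).card : ℝ) / (n : ℝ) ^ a := by
  rw [Fintype.expect_eq_sum_div_card, sum_boole]
  simp

theorem bridge (r : ℕ) (hr : 2 ≤ r) (Δ a : ℕ) (F : Finset (Finset (Fin a)))
    (hc : ∃ c : Fin a → Fin r, ∀ e ∈ F, ∀ i, (e.filter fun v => c v = i).card = 1)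
    (hd : ∀ v, (F.filter fun e => v ∈ e).card ≤ Δ)
    (n : ℕ) (hn : 0 < n) (H : Finset (Finset (Fin n))) (hH : ∀ e ∈ H, e.card = r)
    (s : ℝ) (tF tK : ℝ)
    (h1 : tF = ((univ.filter fun φ : Fin a → Fin n => ∀ e ∈ F, e.image φ ∈ H).card : ℝ) /
      (n : ℝ) ^ a)
    (h2 : tK = ((univ.filter fun φ : Fin r → Fin n =>
      ∀ e ∈ ({univ} : Finset (Finset (Fin r))), e.image φ ∈ H).card : ℝ) / (n : ℝ) ^ r)
    (hs : tF = tK ^ s) (h0 : 0 < tF) :
    s ≤ ((K Δ r * (r + 1) : ℕ) : ℝ) * (F.card : ℝ) := by
  classical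
  have : Nonempty (Fin n) := ⟨⟨0, hn⟩⟩
  obtain ⟨c, hc⟩ := hc
  set g : (Fin r → Fin n) → Prop := fun x => univ.image x ∈ H with hg
  have eK : tK = dens g := by
    rw [h2, ← ratio]
    unfold dens
    refine expect_congr rfl fun x _ => ?_
    simp [hg]
  have K1 : tK < 1 := by
    rw [eK]
    refine expect_lt (fun x _ => by split_ifs <;> norm_num) ⟨fun _ => ⟨0, hn⟩, mem_univ _, ?_⟩
    rw [if_neg]
    · norm_num
    · intro h
      have h3 := hH _ h
      have : Nonempty (Fin r) := ⟨⟨0, by omega⟩⟩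
      rw [image_const univ_nonempty, card_singleton] at h3
      omega
  have K0 : 0 ≤ tK := eK ▸ dens_nn g
  rcases K0.eq_or_lt with hz | hz
  · have : s = 0 := by
      by_contra hs0
      rw [← hz, Real.zero_rpow hs0] at hs
      exact h0.ne' hs
    rw [this]; positivity
  have hL : 0 < -Real.log tK := by
    have := Real.log_neg hz K1
    linarith
  have hlog : -Real.log tF = s * (-Real.log tK) := by
    rw [hs, Real.log_rpow hz]; ring
  rcases F.eq_empty_or_nonempty with rfl | hF
  · have : tF = 1 := by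
      rw [h1]
      simp only [notMem_empty, IsEmpty.forall_iff, implies_true, filter_true, card_univ,
        Fintype.card_fun, Fintype.card_fin, Nat.cast_pow]
      exact div_self (by positivity)
    rw [this, Real.log_one] at hlog
    have : s = 0 := by
      rcases mul_eq_zero.1 (hlog.symm.trans neg_zero) with h | h
      · exact h
      · exact absurd h hL.ne'
    rw [this]; positivity
  set F0 : Finset (Fin r → Fin a) :=
    univ.filter fun ε => (∀ i, c (ε i) = i) ∧ univ.image ε ∈ F with hF0
  have inj : Set.InjOn (fun ε : Fin r → Fin a => univ.image ε) F0 := by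
    intro ε h ε' h' he
    have h := (mem_filter.1 h).2
    have h' := (mem_filter.1 h').2
    funext i
    have := card_le_one.1 (hc _ h.2 i).le (ε i)
      (mem_filter.2 ⟨mem_image_of_mem _ (mem_univ i), h.1 i⟩) (ε' i)
      (mem_filter.2 ⟨by
        have he : univ.image ε = univ.image ε' := he
        rw [he]; exact mem_image_of_mem _ (mem_univ i), h'.1 i⟩)
    exact this
  have surj : ∀ e ∈ F, ∃ ε ∈ F0, univ.image ε = e := by
    intro e he
    have : ∀ i, ∃ v, e.filter (fun v => c v = i) = {v} := fun i => card_eq_one.1 (hc e he i)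
    choose ε hε using this
    have m : ∀ i, ε i ∈ e ∧ c (ε i) = i := fun i =>
      mem_filter.1 (by rw [hε i]; exact mem_singleton_self _ :
        ε i ∈ e.filter (fun v => c v = i))
    have im : univ.image ε = e := by
      ext v
      constructor
      · intro hv
        obtain ⟨i, -, rfl⟩ := mem_image.1 hv
        exact (m i).1
      · intro hv
        have : v ∈ e.filter (fun u => c u = c v) := mem_filter.2 ⟨hv, rfl⟩
        rw [hε] at this
        exact mem_image.2 ⟨c v, mem_univ _, (mem_singleton.1 this).symm⟩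
    exact ⟨ε, mem_filter.2 ⟨mem_univ _, fun i => (m i).2, im.symm ▸ he⟩, im⟩
  have cnt := count (V := Fin n) Δ r F0 (by
      intro e he e' he' i j h
      rw [← (mem_filter.1 he).2.1 i, h, (mem_filter.1 he').2.1 j]) (by
      intro u
      refine le_trans (card_le_card_of_injOn (fun ε : Fin r → Fin a => univ.image ε) ?_
        (inj.mono ?_)) (hd u)
      · intro ε hε
        obtain ⟨h3, i, hi⟩ := mem_filter.1 (mem_coe.1 hε)
        exact mem_coe.2 (mem_filter.2 ⟨(mem_filter.1 h3).2.2, mem_image.2 ⟨i, mem_univ _, hi⟩⟩)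
      · intro ε hε
        exact mem_coe.2 (mem_filter.1 (mem_coe.1 hε)).1) g (eK ▸ hz)
  have eF : tF = 𝔼 x : Fin a → Fin n, if ∀ e ∈ F0, g (x ∘ e) then (1 : ℝ) else 0 := by
    rw [h1, ← ratio]
    refine expect_congr rfl fun x _ => ?_
    have : (∀ e ∈ F, e.image x ∈ H) ↔ ∀ e ∈ F0, g (x ∘ e) := by
      constructor
      · intro h ε hε
        have := h _ (mem_filter.1 hε).2.2
        rwa [image_image] at this
      · intro h e he
        obtain ⟨ε, hε, rfl⟩ := surj e he
        rw [image_image]
        exact h ε hε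
    simp only [this]
  have cnt2 : -Real.log tF ≤ (K Δ r : ℝ) * ((r * F0.card : ℕ) + 1) * (-Real.log tK) := by
    rw [eF, eK]
    refine le_trans (le_of_eq ?_) cnt
    refine congrArg (fun z => -Real.log z) (expect_congr rfl fun x _ => ?_)
    split_ifs <;> rfl
  rw [hlog] at cnt2
  refine (le_of_mul_le_mul_right cnt2 hL).trans ?_
  have c1 : F0.card ≤ F.card := card_le_card_of_injOn (fun ε : Fin r → Fin a => univ.image ε)
    (fun ε hε => mem_coe.2 (mem_filter.1 (mem_coe.1 hε)).2.2) inj
  have c2 : K Δ r * (r * F0.card + 1) ≤ K Δ r * (r + 1) * F.card := by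
    rw [mul_assoc]
    refine Nat.mul_le_mul_left _ ?_
    have := card_pos.2 hF
    nlinarith [Nat.mul_le_mul_left r c1]
  exact_mod_cast c2

end Pool.Agent.H.MP_30cdc8_co
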